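import Pool.Agent.Helper33.Iso.All
import Pool.Agent.Helper72.Orb.Main
import Pool.Agent.Helper72.Orb.Universal

/-!
# Fadell–Neuwirth maps of linear quotient orbifolds are not quasifibrations

`M = V/H` for a nontrivial finite group `H` acting faithfully by linear isometries on a Euclidean
space `V`, where `dim V ≥ 3` or some element `≠ 1` of `H` fixes a nonzero vector.  If some element
`≠ 1` fixes a nonzero vector, exactness fails at `π_N(PB_{n+1}(M))`,
`N = 2 dim W + dim W' - 2` (see `Helper72/Orb/Main.lean`).  If `H` acts freely on `V ∖ 0`, a Whitehead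
product in `π_{2d-3}(F_y)`, `d = dim V`, is not trivial but dies in `PB_{n+1}(M)`, while
`π_q(PB_{n+1}(M)) → π_q(PB_n(M))` is onto for `q ≥ 2` (see `Helper33/Iso`).
-/

set_option autoImplicit false

open Topology unitInterval Pool.Agent.Helper72.Orb

namespace Pool.Agent.Results.MP_fa0058_gt.AllLinearQuotients

universe u v w

/-- Let `M = V/H`, where the nontrivial finite group `H` acts faithfully by linear isometries on the
Euclidean space `V`, and `dim V ≥ 3` or some element `≠ 1` of `H` fixes a nonzero vector. For every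
`n ≥ 1` the map `f(M) : PB_{n+1}(M) → PB_n(M)` is not a quasifibration. The classifying spaces are
formed with any universal space `E` for the group `H`; every finite group has such a space. -/
theorem result :
    (∀ (H : Type u) [Group H] [Finite H],
      ∃ (E : Type u) (_ : TopologicalSpace E) (_ : MulAction H E), IsUniversalSpace H E) ∧
    ∀ (H : Type u) [Group H] [Finite H] (V : Type w) [NormedAddCommGroup V]
      [InnerProductSpace ℝ V] [FiniteDimensional ℝ V] [MulAction H V],
      IsOrthogonalAction H V → (∃ h : H, h ≠ 1) →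
      (3 ≤ Module.finrank ℝ V ∨ ∃ h : H, h ≠ 1 ∧ ∃ x : V, x ≠ 0 ∧ h • x = x) →
      ∀ (E : Type v) [TopologicalSpace E] [MulAction H E], IsUniversalSpace H E →
        ∀ n : ℕ, 1 ≤ n → ¬ IsQuasifibration H E V n := by
  refine ⟨fun H _ _ => exists_universalSpace H, ?_⟩
  intro H _ _ V _ _ _ _ hV hne hs E _ _ hE n hn
  obtain ⟨m, rfl⟩ : ∃ m, n = m + 1 := ⟨n - 1, by omega⟩
  by_cases hfix : ∃ h : H, h ≠ 1 ∧ ∃ x : V, x ≠ 0 ∧ h • x = x
  · exact not_quasifibration hV hfix hE m
  · have hd : 3 ≤ Module.finrank ℝ V := hs.resolve_right hfix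
    refine Pool.Agent.Helper33.Iso.main H V E hV ?_ hne (by omega) hE m
    intro h hh x hx
    by_contra hx0
    exact hfix ⟨h, hh, x, hx0, hx⟩

end Pool.Agent.Results.MP_fa0058_gt.AllLinearQuotients
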