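import Pool.Agent.Helper33.Iso.All
import Pool.Agent.Helper4.Iso.UNIV

/-!
# Orbifolds covered by a Euclidean space with a singular point

`M = V/H` for a group `H` (finite or infinite) acting effectively by homeomorphisms on a Euclidean space
`V`, linear at a singular point.  For instance every complete Riemannian orbifold of nonpositive
curvature with a singular point: its universal cover is a Hadamard manifold, identified with a
tangent space by the exponential map.
-/

set_option autoImplicit false

open Topology unitInterval Pool.Agent.Helper72.Orb Pool.Agent.Helper33.Iso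

namespace Pool.Agent.Results.MP_fa0058_gt.EuclideanCovers

universe u v w

/-- Let `M = V/H`, where the group `H` acts effectively on the Euclidean space `V` by homeomorphisms and
`0` is a singular point at which the action is linear (`IsLinearAtZero`). Let `n ≥ 1`, and suppose
that `n = 1` and `dim V ≥ 3`, or that some `h ≠ 1` in the isotropy group of `0` fixes a nonzero
vector. Then `f(M) : PB_{n+1}(M) → PB_n(M)` is not a quasifibration. The classifying spaces are formed
with any universal space `E` for the group `H`; every group has such a space. -/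
theorem result :
    (∀ (H : Type u) [Group H],
      ∃ (E : Type u) (_ : TopologicalSpace E) (_ : MulAction H E), IsUniversalSpace H E) ∧
    ∀ (H : Type u) [Group H] (V : Type w) [NormedAddCommGroup V]
      [InnerProductSpace ℝ V] [FiniteDimensional ℝ V] [MulAction H V], IsLinearAtZero H V →
      ∀ (E : Type v) [TopologicalSpace E] [MulAction H E], IsUniversalSpace H E →
        ∀ n : ℕ, 1 ≤ n → (n = 1 ∧ 3 ≤ Module.finrank ℝ V ∨
          ∃ h : H, h ≠ 1 ∧ h • (0 : V) = 0 ∧ ∃ x : V, x ≠ 0 ∧ h • x = x) →
        ¬ IsQuasifibration H E V n := by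
  refine ⟨Pool.Agent.Helper4.Iso.gUNIV, ?_⟩
  intro H _ V _ _ _ _ hL E _ _ hE n hn hs
  by_cases hfix : ∃ h : H, h ≠ 1 ∧ h • (0 : V) = 0 ∧ ∃ x : V, x ≠ 0 ∧ h • x = x
  · obtain ⟨m, rfl⟩ : ∃ m, n = m + 1 := ⟨n - 1, by omega⟩
    exact mainnon H V E hL hfix hE m
  · obtain ⟨rfl, hd⟩ := hs.resolve_right hfix
    refine mainiso H V E hL ?_ (by omega) hE
    intro h hh h0 x hx
    by_contra hx0
    exact hfix ⟨h, hh, h0, x, hx0, hx⟩

end Pool.Agent.Results.MP_fa0058_gt.EuclideanCovers
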